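import Pool.Agent.Q187.HN.Ho

/-! # Polyconvexity of isotropic functions on `GL⁺(2)` from polyconvexity on diagonal matrices -/

set_option autoImplicit false

namespace Pool.Agent.Q187.VL

open Set Filter Topology
open Pool.Agent.Y273.VI (RCp)
open Pool.Agent.Q187.VI
open Pool.Agent.Q187.HN

/-- the function depends on the moduli only -/
def Md (G : ℂ × ℂ → ℝ) : Prop :=
  ∀ F F' : ℂ × ℂ, ‖F.1‖ = ‖F'.1‖ → ‖F.2‖ = ‖F'.2‖ → G F = G F'

/-- monotonicity at fixed determinant -/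
theorem mono_det {G : ℂ × ℂ → ℝ} (hR : RCp G) (hM : Md G) {F F' : ℂ × ℂ} (hF : Gl F)
    (hD : Dc F = Dc F') (hle : ‖F.2‖ ≤ ‖F'.2‖) : G F ≤ G F' := by
  have hD0 : 0 < Dc F := (Gl_iff F).1 hF
  set d := Dc F with hd
  set r := Real.sqrt d with hr
  have hr2 : r ^ 2 = d := Real.sq_sqrt hD0.le
  set P : ℝ → ℂ × ℂ := fun τ => ((r : ℂ), (0 : ℂ)) + τ • (Complex.I, (1 : ℂ)) with hP
  have hDr : Dc ((r : ℂ), (0 : ℂ)) = d := by
    simp [Dc, hr2]
  have n1 : ∀ τ, ‖(P τ).1‖ ^ 2 = d + τ ^ 2 := by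
    intro τ
    rw [← Complex.normSq_eq_norm_sq, Complex.normSq_apply, ← hr2]
    simp [hP]
    ring
  have n2 : ∀ τ, ‖(P τ).2‖ = |τ| := by
    intro τ
    simp [hP]
  have hDP : ∀ τ, Dc (P τ) = d := by
    intro τ
    unfold Dc
    rw [n1, n2, sq_abs]
    ring
  have hmod : ∀ F'' : ℂ × ℂ, Dc F'' = d → G F'' = G (P ‖F''.2‖) := by
    intro F'' h2
    refine hM _ _ ?_ ?_
    · have h3 : ‖F''.1‖ ^ 2 = ‖(P ‖F''.2‖).1‖ ^ 2 := by
        rw [n1, ← h2]; unfold Dc; ring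
      exact (sq_eq_sq₀ (norm_nonneg _) (norm_nonneg _)).1 h3
    · rw [n2, abs_of_nonneg (norm_nonneg _)]
  have hev : ∀ τ, G (P (-τ)) = G (P τ) := by
    intro τ
    refine hM _ _ ?_ ?_
    · have h3 : ‖(P (-τ)).1‖ ^ 2 = ‖(P τ).1‖ ^ 2 := by rw [n1, n1]; ring
      exact (sq_eq_sq₀ (norm_nonneg _) (norm_nonneg _)).1 h3
    · rw [n2, n2, abs_neg]
  have hc := lineW hR (F := ((r : ℂ), (0 : ℂ))) (H := (Complex.I, (1 : ℂ)))
    (by simp) (κ := 0) (fun τ => by rw [hDr]; have := hDP τ; simp only [hP] at this; rw [this]; ring)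
  have hmem : ∀ x : ℝ, x ∈ {τ : ℝ | 0 < Dc ((r : ℂ), (0 : ℂ)) + 0 * τ} := by
    intro x
    show 0 < Dc ((r : ℂ), (0 : ℂ)) + 0 * x
    rw [hDr]; linarith
  rw [hmod F hd.symm, hmod F' hD.symm]
  set y1 := ‖F.2‖ with hy1
  set y2 := ‖F'.2‖ with hy2
  have h01 : 0 ≤ y1 := norm_nonneg _
  rcases eq_or_lt_of_le (h01.trans hle) with h2 | h2
  · have : y1 = y2 := by linarith
    rw [this]
  · set b : ℝ := (y1 + y2) / (2 * y2) with hb
    have hb0 : 0 ≤ b := by positivity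
    have hb1 : b ≤ 1 := by rw [hb, div_le_one (by positivity)]; linarith
    have h3 := hc.2 (hmem (-y2)) (hmem y2) (sub_nonneg.2 hb1) hb0 (by ring)
    simp only [smul_eq_mul] at h3
    have h4 : G (P ((1 - b) * -y2 + b * y2)) ≤ (1 - b) * G (P (-y2)) + b * G (P y2) := h3
    have e : (1 - b) * -y2 + b * y2 = y1 := by
      rw [hb]; field_simp; ring
    rw [e, hev] at h4
    linarith

/-- a rank-one segment with radial second component -/
theorem seg {x0 y0 x1 y1 : ℝ} (hx0 : 0 < x0) (hy0 : 0 ≤ y0) (hxy0 : y0 < x0) (hy1 : 0 ≤ y1)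
    (hxy1 : y1 < x1) (hlt : |x1 - x0| ≤ |y1 - y0|) (hne : y1 ≠ y0) :
    ∃ H : ℂ × ℂ, ‖H.1‖ = ‖H.2‖ ∧
      (∀ l : ℝ, 0 ≤ l → l ≤ 1 → ‖(((x0 : ℂ), (y0 : ℂ)) + l • H).2‖ = y0 + l * (y1 - y0)) ∧
      (∀ l : ℝ, ‖(((x0 : ℂ), (y0 : ℂ)) + l • H).1‖ ^ 2
        = x0 ^ 2 + l * (x1 ^ 2 - x0 ^ 2 - (y1 - y0) ^ 2) + l ^ 2 * (y1 - y0) ^ 2) := by
  set t := y1 - y0 with ht
  have ht0 : t ≠ 0 := sub_ne_zero.2 hne
  set c : ℝ := (x1 ^ 2 - x0 ^ 2 - t ^ 2) / (2 * x0 * t) with hc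
  have hx1 : 0 < x1 := by linarith
  have hc1 : c ^ 2 ≤ 1 := by
    rw [hc, div_pow, div_le_one (by positivity)]
    have h1 : (x1 - x0) ^ 2 ≤ t ^ 2 := sq_le_sq.2 hlt
    have h2 : t ^ 2 ≤ (x1 + x0) ^ 2 := by
      rw [sq_le_sq, abs_of_pos (by linarith : 0 < x1 + x0), abs_le]
      constructor <;> linarith
    nlinarith [mul_nonneg (sub_nonneg.2 h1) (sub_nonneg.2 h2)]
  set σ : ℝ := Real.sqrt (1 - c ^ 2) with hσ
  have hσ2 : σ ^ 2 = 1 - c ^ 2 := Real.sq_sqrt (by linarith)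
  have hct : 2 * x0 * t * c = x1 ^ 2 - x0 ^ 2 - t ^ 2 := by
    rw [hc]; field_simp
  refine ⟨((⟨t * c, t * σ⟩ : ℂ), (t : ℂ)), ?_, fun l h0 h1 => ?_, fun l => ?_⟩
  · have h3 : ‖(⟨t * c, t * σ⟩ : ℂ)‖ ^ 2 = ‖(t : ℂ)‖ ^ 2 := by
      rw [← Complex.normSq_eq_norm_sq, Complex.normSq_apply, Complex.norm_real, Real.norm_eq_abs,
        sq_abs]
      simp only
      linear_combination t ^ 2 * hσ2
    exact (sq_eq_sq₀ (norm_nonneg _) (norm_nonneg _)).1 h3
  · have e : (((x0 : ℂ), (y0 : ℂ)) + l • ((⟨t * c, t * σ⟩ : ℂ), (t : ℂ))).2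
        = ((y0 + l * t : ℝ) : ℂ) := by
      simp
    rw [e, Complex.norm_real, Real.norm_eq_abs, abs_of_nonneg]
    have : y0 + l * t = (1 - l) * y0 + l * y1 := by rw [ht]; ring
    rw [this]
    have := mul_nonneg (sub_nonneg.2 h1) hy0
    have := mul_nonneg h0 hy1
    linarith
  · rw [← Complex.normSq_eq_norm_sq, Complex.normSq_apply]
    simp only [Prod.fst_add, Prod.smul_fst, Complex.add_re, Complex.add_im, Complex.ofReal_re,
      Complex.ofReal_im, Complex.real_smul, Complex.mul_re, Complex.mul_im, zero_mul, sub_zero,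
      add_zero, zero_add]
    linear_combination l ^ 2 * t ^ 2 * hσ2 + l * hct

/-- the key estimate -/
theorem core {G : ℂ × ℂ → ℝ} (hR : RCp G) (hM : Md G) {F0 : ℂ × ℂ} (h0 : Gl F0) {A B k : ℝ}
    (hA : 0 ≤ A) (hB : B < 0)
    (hS : ∀ F, Gl F → G F0 + A * (‖F.2‖ - ‖F0.2‖) + B * (‖F.1‖ - ‖F0.1‖)
      + k * (Dc F - Dc F0) ≤ G F) :
    0 ≤ A + B * (‖F0.2‖ / ‖F0.1‖) ∧
    ∀ F, Gl F → G F0 + (A + B * (‖F0.2‖ / ‖F0.1‖)) * (‖F.2‖ - ‖F0.2‖)
      + (k + B / (2 * ‖F0.1‖)) * (Dc F - Dc F0) ≤ G F := by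
  set x0 := ‖F0.1‖ with hx0d
  set y0 := ‖F0.2‖ with hy0d
  have hy0 : 0 ≤ y0 := norm_nonneg _
  have hxy : y0 < x0 := h0
  have hx0 : 0 < x0 := by linarith
  have hD0 : Dc F0 = x0 ^ 2 - y0 ^ 2 := rfl
  constructor
  · -- sign of the coefficient
    have key : ∀ y : ℝ, 0 ≤ y → y < y0 → 0 ≤ 2 * (A * x0 + B * y0) + (-B) * (y0 - y) := by
      intro y hy hyy
      have hd0 : 0 < x0 ^ 2 - y0 ^ 2 := by nlinarith
      set x := Real.sqrt (x0 ^ 2 - y0 ^ 2 + y ^ 2) with hx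
      have hx2 : x ^ 2 = x0 ^ 2 - y0 ^ 2 + y ^ 2 := Real.sq_sqrt (by positivity)
      have hxn : 0 ≤ x := Real.sqrt_nonneg _
      have hxy' : y < x := by nlinarith
      have hxx : x < x0 := by nlinarith
      set F : ℂ × ℂ := ((x : ℂ), (y : ℂ)) with hF
      have f1 : ‖F.1‖ = x := by
        rw [hF]; simp only; rw [Complex.norm_real, Real.norm_eq_abs, abs_of_nonneg hxn]
      have f2 : ‖F.2‖ = y := by
        rw [hF]; simp only; rw [Complex.norm_real, Real.norm_eq_abs, abs_of_nonneg hy]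
      have hGF : Gl F := by show ‖F.2‖ < ‖F.1‖; rw [f1, f2]; exact hxy'
      have hDF : Dc F = Dc F0 := by
        unfold Dc
        rw [f1, f2, hx2]; ring
      have h1 := mono_det hR hM hGF hDF (by rw [f2]; exact hyy.le)
      have h2 := hS F hGF
      rw [hDF, f1, f2] at h2
      -- `A (y - y0) + B (x - x0) ≤ 0`
      have h3 : 0 ≤ A * (y0 - y) + B * (x0 - x) := by linarith
      have h4 : (x0 - x) * (x0 + x) = (y0 - y) * (y0 + y) := by linear_combination -hx2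
      have h5 : 0 ≤ (A * (x0 + x) + B * (y0 + y)) * (y0 - y) := by
        have := mul_nonneg h3 (by linarith : (0 : ℝ) ≤ x0 + x)
        have e : (A * (y0 - y) + B * (x0 - x)) * (x0 + x)
            = (A * (x0 + x) + B * (y0 + y)) * (y0 - y) := by
          linear_combination B * h4
        rwa [e] at this
      have h6 : 0 ≤ A * (x0 + x) + B * (y0 + y) := nonneg_of_mul_nonneg_left h5 (by linarith)
      have h7 := mul_nonneg hA (by linarith : 0 ≤ x0 - x)
      linarith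
    have hfin : 0 ≤ A * x0 + B * y0 := by
      rcases eq_or_lt_of_le hy0 with h | h
      · rw [← h, mul_zero, add_zero]; positivity
      · by_contra hcon
        rw [not_le] at hcon
        set η := -(A * x0 + B * y0) with hη
        have hη0 : 0 < η := by linarith
        set ε := min y0 (η / (-B)) with hε
        have hε0 : 0 < ε := lt_min h (by have : 0 < -B := by linarith
                                         positivity)
        have h1 := key (y0 - ε) (by linarith [min_le_left y0 (η / (-B))]) (by linarith)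
        have h2 : (-B) * (y0 - (y0 - ε)) ≤ η := by
          have : ε ≤ η / (-B) := min_le_right _ _
          rw [le_div_iff₀ (by linarith)] at this
          linarith
        linarith
    have e : A + B * (y0 / x0) = (A * x0 + B * y0) / x0 := by field_simp
    rw [e]; positivity
  · intro F hF
    set x := ‖F.1‖ with hxd
    set y := ‖F.2‖ with hyd
    have hy : 0 ≤ y := norm_nonneg _
    have hyx : y < x := hF
    have hDF : Dc F = x ^ 2 - y ^ 2 := rfl
    have hid : (A * (y - y0) + B * (x - x0) + k * (Dc F - Dc F0))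
        - ((A + B * (y0 / x0)) * (y - y0) + (k + B / (2 * x0)) * (Dc F - Dc F0))
        = (-B / (2 * x0)) * ((x - x0) ^ 2 - (y - y0) ^ 2) := by
      rw [hDF, hD0]
      field_simp
      ring
    have hκ : 0 < -B / (2 * x0) := div_pos (by linarith) (by linarith)
    rcases le_or_gt |y - y0| |x - x0| with hc | hc
    · have h1 := hS F hF
      have h2 : 0 ≤ (-B / (2 * x0)) * ((x - x0) ^ 2 - (y - y0) ^ 2) :=
        mul_nonneg hκ.le (sub_nonneg.2 (sq_le_sq.2 hc))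
      linarith
    · have hne : y ≠ y0 := by
        intro h
        rw [h, sub_self, abs_zero] at hc
        exact absurd hc (not_lt.2 (abs_nonneg _))
      obtain ⟨H, hH, hs2, hs1⟩ := seg hx0 hy0 hxy hy hyx hc.le hne
      set F0' : ℂ × ℂ := ((x0 : ℂ), (y0 : ℂ)) with hF0'
      have e1 : ‖F0'.1‖ = x0 := by
        rw [hF0']; simp only; rw [Complex.norm_real, Real.norm_eq_abs, abs_of_pos hx0]
      have e2 : ‖F0'.2‖ = y0 := by
        rw [hF0']; simp only; rw [Complex.norm_real, Real.norm_eq_abs, abs_of_nonneg hy0]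
      have hG0 : G F0' = G F0 := hM _ _ e1 e2
      have g2 : ‖(F0' + H).2‖ = y := by
        have := hs2 1 zero_le_one le_rfl
        rw [one_smul] at this
        rw [this]; ring
      have g1 : ‖(F0' + H).1‖ = x := by
        have h3 : ‖(F0' + H).1‖ ^ 2 = x ^ 2 := by
          have := hs1 1
          rw [one_smul] at this
          rw [this]; ring
        exact (sq_eq_sq₀ (norm_nonneg _) (by linarith)).1 h3
      have hG1 : G (F0' + H) = G F := hM _ _ g1 g2
      have hDl : ∀ l : ℝ, 0 ≤ l → l ≤ 1 → Dc (F0' + l • H) = Dc F0 + l * (Dc F - Dc F0) := by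
        intro l hl0 hl1
        rw [hDF, hD0]
        unfold Dc
        rw [hs1 l, hs2 l hl0 hl1]
        ring
      have hGll : ∀ l : ℝ, 0 ≤ l → l ≤ 1 → Gl (F0' + l • H) := by
        intro l hl0 hl1
        rw [Gl_iff, hDl l hl0 hl1]
        have p0 := (Gl_iff F0).1 h0
        have p1 := (Gl_iff F).1 hF
        have : Dc F0 + l * (Dc F - Dc F0) = (1 - l) * Dc F0 + l * Dc F := by ring
        rw [this]
        rcases eq_or_lt_of_le hl0 with h | h
        · rw [← h]; simpa using p0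
        · have := mul_pos h p1
          have := mul_nonneg (sub_nonneg.2 hl1) p0.le
          linarith
      -- convexity along the segment
      have hconv : ∀ l : ℝ, 0 ≤ l → l ≤ 1 → G (F0' + l • H) ≤ (1 - l) * G F0 + l * G F := by
        intro l hl0 hl1
        have := hR F0' H hH (by rw [e1, e2]; exact hxy) (by rw [g1, g2]; exact hyx) l hl0 hl1
        rwa [hG0, hG1] at this
      set S : ℝ := (A + B * (y0 / x0)) * (y - y0) + (k + B / (2 * x0)) * (Dc F - Dc F0) with hSd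
      have hlow : ∀ l : ℝ, 0 ≤ l → l ≤ 1 → G F0 + l * S - (-B / (2 * x0)) * (l ^ 2 * (y - y0) ^ 2)
          ≤ G (F0' + l • H) := by
        intro l hl0 hl1
        have h1 := hS _ (hGll l hl0 hl1)
        set xl := ‖(F0' + l • H).1‖ with hxl
        have hyl : ‖(F0' + l • H).2‖ = y0 + l * (y - y0) := hs2 l hl0 hl1
        rw [hyl] at h1
        have hDl' := hDl l hl0 hl1
        have hid2 : (A * (y0 + l * (y - y0) - y0) + B * (xl - x0)
            + k * (Dc (F0' + l • H) - Dc F0)) - l * S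
            = (-B / (2 * x0)) * ((xl - x0) ^ 2 - (l * (y - y0)) ^ 2) := by
          have hxl2 : xl ^ 2 = x0 ^ 2 + l * (x ^ 2 - x0 ^ 2 - (y - y0) ^ 2) + l ^ 2 * (y - y0) ^ 2 :=
            hs1 l
          rw [hDl', hSd, hDF, hD0]
          have hx0' : x0 ≠ 0 := hx0.ne'
          field_simp
          linear_combination B * hxl2
        have h2 : 0 ≤ (-B / (2 * x0)) * (xl - x0) ^ 2 := mul_nonneg hκ.le (sq_nonneg _)
        have h3 : (-B / (2 * x0)) * ((xl - x0) ^ 2 - (l * (y - y0)) ^ 2)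
            = (-B / (2 * x0)) * (xl - x0) ^ 2 - (-B / (2 * x0)) * (l ^ 2 * (y - y0) ^ 2) := by ring
        linarith
      have hall : ∀ l : ℝ, 0 < l → l ≤ 1 → S - (-B / (2 * x0)) * (y - y0) ^ 2 * l ≤ G F - G F0 := by
        intro l hl0 hl1
        have h1 := (hlow l hl0.le hl1).trans (hconv l hl0.le hl1)
        have h2 : l * (S - (-B / (2 * x0)) * (y - y0) ^ 2 * l) ≤ l * (G F - G F0) := by
          linarith
        exact le_of_mul_le_mul_left h2 hl0
      have hfin : S ≤ G F - G F0 := by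
        have ht : Tendsto (fun l : ℝ => S - (-B / (2 * x0)) * (y - y0) ^ 2 * l) (𝓝[>] 0) (𝓝 S) := by
          have hcont : Continuous (fun l : ℝ => S - (-B / (2 * x0)) * (y - y0) ^ 2 * l) := by
            fun_prop
          have := hcont.tendsto 0
          simp only [mul_zero, sub_zero] at this
          exact this.mono_left nhdsWithin_le_nhds
        refine le_of_tendsto ht ?_
        have hin : Ioc (0 : ℝ) 1 ∈ 𝓝[>] (0 : ℝ) := Ioc_mem_nhdsGT one_pos
        filter_upwards [hin] with l hl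
        exact hall l hl.1 hl.2
      linarith

/-- supporting functions -/
theorem supp {G : ℂ × ℂ → ℝ} (hR : RCp G) (hM : Md G) {F0 : ℂ × ℂ} (h0 : Gl F0) {A B k : ℝ}
    (hA : 0 ≤ A)
    (hS : ∀ F, Gl F → G F0 + A * (‖F.2‖ - ‖F0.2‖) + B * (‖F.1‖ - ‖F0.1‖)
      + k * (Dc F - Dc F0) ≤ G F) :
    ∃ a b k : ℝ, 0 ≤ a ∧ 0 ≤ b ∧ ∀ F, Gl F →
      G F0 + a * (‖F.2‖ - ‖F0.2‖) + b * (‖F.1‖ - ‖F0.1‖) + k * (Dc F - Dc F0) ≤ G F := by
  rcases le_or_gt 0 B with hB | hB
  · exact ⟨A, B, k, hA, hB, hS⟩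
  · obtain ⟨h1, h2⟩ := core hR hM h0 hA hB hS
    refine ⟨A + B * (‖F0.2‖ / ‖F0.1‖), 0, k + B / (2 * ‖F0.1‖), h1, le_rfl, fun F hF => ?_⟩
    have := h2 F hF
    rw [zero_mul, add_zero]
    exact this

end Pool.Agent.Q187.VL
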