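import Mathlib

/-! # A multiplicative second difference and the decomposition into convex summands -/

set_option autoImplicit false

namespace Pool.Agent.Q187.VL

open Set Filter Topology

/-- the multiplicative second difference -/
noncomputable def TT (u : ℝ → ℝ) (κ s : ℝ) : ℝ :=
  κ / (κ + 1) * u (s / κ) + 1 / (κ + 1) * u (s * κ) - u s

noncomputable def kap (n : ℕ) : ℝ := Real.exp ((1 / 2) ^ n)

noncomputable def tau (κ : ℝ) : ℝ := (κ - 1) / (κ + 1) * Real.log κ

theorem kap_gt (n : ℕ) : 1 < kap n := by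
  unfold kap
  exact Real.one_lt_exp_iff.2 (by positivity)

theorem kap_sq (n : ℕ) : kap (n + 1) ^ 2 = kap n := by
  unfold kap
  rw [← Real.exp_nat_mul]
  congr 1
  push_cast
  rw [pow_succ]
  ring

theorem kap_lim : Tendsto kap atTop (𝓝 1) := by
  have h1 : Tendsto (fun n : ℕ => ((1 : ℝ) / 2) ^ n) atTop (𝓝 0) :=
    tendsto_pow_atTop_nhds_zero_of_lt_one (by norm_num) (by norm_num)
  have h2 := (Real.continuous_exp.tendsto 0).comp h1
  rw [Real.exp_zero] at h2
  exact h2

theorem tau_pos {κ : ℝ} (h : 1 < κ) : 0 < tau κ :=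
  mul_pos (div_pos (by linarith) (by linarith)) (Real.log_pos h)

theorem TT_log {κ s : ℝ} (hκ : 1 < κ) (hs : 0 < s) : TT Real.log κ s = -tau κ := by
  unfold TT tau
  rw [Real.log_div hs.ne' (by linarith), Real.log_mul hs.ne' (by linarith)]
  have : κ + 1 ≠ 0 := by linarith
  field_simp
  ring

theorem TT_add (u v : ℝ → ℝ) (c κ s : ℝ) :
    TT (fun x => u x + c * v x) κ s = TT u κ s + c * TT v κ s := by
  unfold TT; ring

theorem TT_double {u : ℝ → ℝ} {κ : ℝ} (hκ : 1 < κ) (h : ∀ s, 0 < s → 0 ≤ TT u κ s) {s : ℝ}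
    (hs : 0 < s) : 0 ≤ TT u (κ ^ 2) s := by
  have hκ0 : 0 < κ := by linarith
  have h0 := h s hs
  have h1 := h (s / κ) (by positivity)
  have h2 := h (s * κ) (by positivity)
  unfold TT at h0 h1 h2 ⊢
  have e1 : s / κ * κ = s := by field_simp
  have e2 : s * κ / κ = s := by field_simp
  have e3 : s / κ / κ = s / κ ^ 2 := by field_simp
  have e4 : s * κ * κ = s * κ ^ 2 := by ring
  rw [e1, e3] at h1
  rw [e2, e4] at h2
  set a := u (s / κ ^ 2)
  set b := u (s / κ)
  set c := u s
  set d := u (s * κ)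
  set e := u (s * κ ^ 2)
  have k1 : 0 < κ + 1 := by linarith
  have q0 : 0 ≤ κ * b + d - (κ + 1) * c := by
    have := mul_nonneg k1.le h0
    have e : (κ + 1) * (κ / (κ + 1) * b + 1 / (κ + 1) * d - c) = κ * b + d - (κ + 1) * c := by
      field_simp
    rwa [e] at this
  have q1 : 0 ≤ κ * a + c - (κ + 1) * b := by
    have := mul_nonneg k1.le h1
    have e : (κ + 1) * (κ / (κ + 1) * a + 1 / (κ + 1) * c - b) = κ * a + c - (κ + 1) * b := by
      field_simp
    rwa [e] at this
  have q2 : 0 ≤ κ * c + e - (κ + 1) * d := by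
    have := mul_nonneg k1.le h2
    have e : (κ + 1) * (κ / (κ + 1) * c + 1 / (κ + 1) * e - d) = κ * c + e - (κ + 1) * d := by
      field_simp
    rwa [e] at this
  have q3 : 0 ≤ κ ^ 2 * a + e - (κ ^ 2 + 1) * c := by
    have := mul_nonneg hκ0.le q1
    have := mul_nonneg k1.le q0
    nlinarith
  have k2 : 0 < κ ^ 2 + 1 := by positivity
  have e5 : κ ^ 2 / (κ ^ 2 + 1) * a + 1 / (κ ^ 2 + 1) * e - c
      = (κ ^ 2 * a + e - (κ ^ 2 + 1) * c) / (κ ^ 2 + 1) := by
    field_simp
  rw [e5]; positivity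

theorem TT_down {u : ℝ → ℝ} {N n : ℕ} (hn : n ≤ N) (h : ∀ s, 0 < s → 0 ≤ TT u (kap N) s) :
    ∀ s, 0 < s → 0 ≤ TT u (kap n) s := by
  induction N, hn using Nat.le_induction with
  | base => exact h
  | succ N hN ih =>
    refine ih (fun s hs => ?_)
    rw [← kap_sq N]
    exact TT_double (kap_gt _) h hs

theorem TT_of_convex {u : ℝ → ℝ} (h : ConvexOn ℝ (Ioi 0) u) {κ s : ℝ} (hκ : 1 < κ) (hs : 0 < s) :
    0 ≤ TT u κ s := by
  have hκ0 : 0 < κ := by linarith
  have h1 := h.2 (mem_Ioi.2 (show 0 < s / κ by positivity))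
    (mem_Ioi.2 (show 0 < s * κ by positivity)) (show 0 ≤ κ / (κ + 1) by positivity)
    (show 0 ≤ 1 / (κ + 1) by positivity) (by field_simp)
  simp only [smul_eq_mul] at h1
  have e : κ / (κ + 1) * (s / κ) + 1 / (κ + 1) * (s * κ) = s := by field_simp; ring
  rw [e] at h1
  unfold TT
  linarith

/-- a continuous function with nonnegative second differences is convex -/
theorem conv_of {u : ℝ → ℝ} (hc : ContinuousOn u (Ioi 0))
    (h : ∀ n : ℕ, ∀ s, 0 < s → 0 ≤ TT u (kap n) s) : ConvexOn ℝ (Ioi 0) u := by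
  have key : ∀ x y : ℝ, 0 < x → x < y → ∀ z ∈ Icc x y,
      u z ≤ u x + (u y - u x) / (y - x) * (z - x) := by
    intro x y hx hxy z hz
    by_contra hcon
    rw [not_le] at hcon
    set c := (u y - u x) / (y - x) with hcdef
    set φ : ℝ → ℝ := fun t => u t - (u x + c * (t - x)) with hφ
    have hφx : φ x = 0 := by simp [hφ]
    have hφy : φ y = 0 := by
      simp only [hφ, hcdef]
      have : y - x ≠ 0 := by linarith
      field_simp
      ring
    have hsub : Icc x y ⊆ Ioi (0 : ℝ) := fun t ht => lt_of_lt_of_le hx ht.1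
    have hφc : ContinuousOn φ (Icc x y) := (hc.mono hsub).sub (by fun_prop)
    obtain ⟨t0, ht0, hmax⟩ := isCompact_Icc.exists_isMaxOn ⟨z, hz⟩ hφc
    set M := φ t0 with hM
    have hMz : φ z ≤ M := hmax hz
    have hM0 : 0 < M := by
      have : 0 < φ z := by simp only [hφ]; linarith
      linarith
    set S : Set ℝ := Icc x y ∩ φ ⁻¹' {M} with hS
    have hSc : IsCompact S := by
      refine isCompact_Icc.of_isClosed_subset ?_ inter_subset_left
      exact hφc.preimage_isClosed_of_isClosed isClosed_Icc isClosed_singleton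
    obtain ⟨s, hs, hleast⟩ := hSc.exists_isLeast ⟨t0, ht0, rfl⟩
    have hsM : φ s = M := hs.2
    have hsx : x < s := by
      rcases eq_or_lt_of_le hs.1.1 with h1 | h1
      · rw [← h1, hφx] at hsM; linarith
      · exact h1
    have hsy : s < y := by
      rcases eq_or_lt_of_le hs.1.2 with h1 | h1
      · rw [h1, hφy] at hsM; linarith
      · exact h1
    have hs0 : 0 < s := by linarith
    have l1 : Tendsto (fun n => s / kap n) atTop (𝓝 s) := by
      have : Tendsto (fun n => s / kap n) atTop (𝓝 (s / 1)) :=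
        tendsto_const_nhds.div kap_lim one_ne_zero
      rwa [div_one] at this
    have l2 : Tendsto (fun n => s * kap n) atTop (𝓝 s) := by
      have := kap_lim.const_mul s
      simpa using this
    obtain ⟨n, hn1, hn2⟩ := ((l1.eventually (lt_mem_nhds hsx)).and
      (l2.eventually (gt_mem_nhds hsy))).exists
    have hκ := kap_gt n
    set κ := kap n with hκd
    have hκ0 : 0 < κ := by linarith
    have h1 := h n s hs0
    have hlt : s / κ < s := by rw [div_lt_iff₀ hκ0]; nlinarith
    have hgt : s < s * κ := by nlinarith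
    have m1 : s / κ ∈ Icc x y := ⟨hn1.le, by linarith⟩
    have m2 : s * κ ∈ Icc x y := ⟨by linarith, hn2.le⟩
    have a1 : φ (s / κ) < M := by
      refine lt_of_le_of_ne (hmax m1) (fun heq => ?_)
      have := hleast ⟨m1, heq⟩
      linarith
    have a2 : φ (s * κ) ≤ M := hmax m2
    have e : κ / (κ + 1) * φ (s / κ) + 1 / (κ + 1) * φ (s * κ) - φ s = TT u κ s := by
      simp only [hφ]
      unfold TT
      have : κ + 1 ≠ 0 := by linarith
      field_simp
      ring
    have k1 : 0 < κ / (κ + 1) := by positivity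
    have k2 : 0 < 1 / (κ + 1) := by positivity
    have b1 : κ / (κ + 1) * φ (s / κ) < κ / (κ + 1) * M := mul_lt_mul_of_pos_left a1 k1
    have b2 : 1 / (κ + 1) * φ (s * κ) ≤ 1 / (κ + 1) * M := mul_le_mul_of_nonneg_left a2 k2.le
    have b3 : κ / (κ + 1) * M + 1 / (κ + 1) * M = M := by field_simp
    rw [hsM] at e
    linarith
  refine ⟨convex_Ioi 0, ?_⟩
  have wl : ∀ x y : ℝ, 0 < x → x < y → ∀ a b : ℝ, 0 ≤ a → 0 ≤ b → a + b = 1 →
      u (a * x + b * y) ≤ a * u x + b * u y := by
    intro x y hx hxy a b ha hb hab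
    have ha' : a = 1 - b := by linarith
    have h1 := key x y hx hxy (a * x + b * y) ⟨by rw [ha']; nlinarith, by rw [ha']; nlinarith⟩
    refine h1.trans (le_of_eq ?_)
    have : y - x ≠ 0 := by linarith
    rw [ha']
    field_simp
    ring
  intro x hx y hy a b ha hb hab
  simp only [smul_eq_mul]
  rcases lt_trichotomy x y with h1 | h1 | h1
  · exact wl x y hx h1 a b ha hb hab
  · subst h1
    have : a * x + b * x = x := by rw [← add_mul, hab, one_mul]
    rw [this]
    have : a * u x + b * u x = u x := by rw [← add_mul, hab, one_mul]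
    rw [this]
  · have := wl y x hy h1 b a hb ha (by linarith)
    rw [add_comm (b * y)] at this
    linarith

/-- **decomposition** -/
theorem dec {w f : ℝ → ℝ} (hw : ContinuousOn w (Ioi 0))
    (h : ∀ v, 0 < v → ConvexOn ℝ (Ioi 0) (fun s => w s + f (s * v))) :
    ∃ m : ℝ, ConvexOn ℝ (Ioi 0) (fun s => w s + (-m) * Real.log s) ∧
      ConvexOn ℝ (Ioi 0) (fun s => f s + m * Real.log s) := by
  have hlog : ContinuousOn Real.log (Ioi 0) :=
    Real.continuousOn_log.mono (fun x hx => (ne_of_gt hx : x ≠ 0))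
  have hf : ContinuousOn f (Ioi 0) := by
    have h1 := (h 1 one_pos).continuousOn isOpen_Ioi
    have h2 := h1.sub hw
    refine h2.congr (fun s _ => ?_)
    simp
  have hT : ∀ κ, 1 < κ → ∀ s D, 0 < s → 0 < D → 0 ≤ TT w κ s + TT f κ D := by
    intro κ hκ s D hs hD
    have h1 := TT_of_convex (h (D / s) (by positivity)) hκ hs
    have e : TT (fun s' => w s' + f (s' * (D / s))) κ s = TT w κ s + TT f κ D := by
      unfold TT
      have e1 : s / κ * (D / s) = D / κ := by field_simp
      have e2 : s * κ * (D / s) = D * κ := by field_simp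
      have e3 : s * (D / s) = D := by field_simp
      simp only
      rw [e1, e2, e3]
      ring
    rwa [e] at h1
  set X : Set ℝ := {x | ∃ (n : ℕ) (s : ℝ), 0 < s ∧ x = -TT w (kap n) s / tau (kap n)} with hX
  have hle : ∀ x ∈ X, ∀ (k : ℕ) (D : ℝ), 0 < D → x ≤ TT f (kap k) D / tau (kap k) := by
    rintro x ⟨n, s, hs, rfl⟩ k D hD
    set N := max n k with hN
    set XN : Set ℝ := {x | ∃ s : ℝ, 0 < s ∧ x = -TT w (kap N) s / tau (kap N)} with hXN
    have hτN := tau_pos (kap_gt N)
    have hne : XN.Nonempty := ⟨_, 1, one_pos, rfl⟩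
    have hub : ∀ D', 0 < D' → ∀ x ∈ XN, x ≤ TT f (kap N) D' / tau (kap N) := by
      rintro D' hD' _ ⟨s', hs', rfl⟩
      have := hT (kap N) (kap_gt N) s' D' hs' hD'
      rw [div_le_div_iff_of_pos_right hτN]
      linarith
    have hbd : BddAbove XN := ⟨_, hub 1 one_pos⟩
    set μ := sSup XN with hμ
    have hA : ∀ s', 0 < s' → 0 ≤ TT (fun x => w x + (-μ) * Real.log x) (kap N) s' := by
      intro s' hs'
      rw [TT_add, TT_log (kap_gt N) hs']
      have h1 : -TT w (kap N) s' / tau (kap N) ≤ μ := le_csSup hbd ⟨s', hs', rfl⟩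
      rw [div_le_iff₀ hτN] at h1
      linarith
    have hB : ∀ D', 0 < D' → 0 ≤ TT (fun x => f x + μ * Real.log x) (kap N) D' := by
      intro D' hD'
      rw [TT_add, TT_log (kap_gt N) hD']
      have h1 : μ ≤ TT f (kap N) D' / tau (kap N) := csSup_le hne (hub D' hD')
      rw [le_div_iff₀ hτN] at h1
      linarith
    have hA' := TT_down (le_max_left n k) hA s hs
    have hB' := TT_down (le_max_right n k) hB D hD
    rw [TT_add, TT_log (kap_gt n) hs] at hA'
    rw [TT_add, TT_log (kap_gt k) hD] at hB'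
    have c1 : -TT w (kap n) s / tau (kap n) ≤ μ := by
      rw [div_le_iff₀ (tau_pos (kap_gt n))]; linarith
    have c2 : μ ≤ TT f (kap k) D / tau (kap k) := by
      rw [le_div_iff₀ (tau_pos (kap_gt k))]; linarith
    exact c1.trans c2
  have hXne : X.Nonempty := ⟨_, 0, 1, one_pos, rfl⟩
  have hXb : BddAbove X := ⟨_, fun x hx => hle x hx 0 1 one_pos⟩
  set m := sSup X with hm
  refine ⟨m, conv_of (hw.add (hlog.const_mul _ |>.congr fun s _ => rfl)) (fun n s hs => ?_),
    conv_of (hf.add (hlog.const_mul _ |>.congr fun s _ => rfl)) (fun n s hs => ?_)⟩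
  · rw [TT_add, TT_log (kap_gt n) hs]
    have h1 : -TT w (kap n) s / tau (kap n) ≤ m := le_csSup hXb ⟨n, s, hs, rfl⟩
    rw [div_le_iff₀ (tau_pos (kap_gt n))] at h1
    linarith
  · rw [TT_add, TT_log (kap_gt n) hs]
    have h1 : m ≤ TT f (kap n) s / tau (kap n) := csSup_le hXne (fun x hx => hle x hx n s hs)
    rw [le_div_iff₀ (tau_pos (kap_gt n))] at h1
    linarith

end Pool.Agent.Q187.VL
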