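import Pool.Agent.Q187.VL.Core
import Pool.Agent.Q187.VL.Dec

/-! # Compressible Valanis-Landel energies -/

set_option autoImplicit false

namespace Pool.Agent.Q187.VL

open MeasureTheory Set Filter Topology
open Pool.Agent.Y273.VI (RCp Tm T_meas RCp_of det_cab Rp)
open Pool.Agent.W360.MQ (cab)
open Pool.Agent.W523.MQ.OM (T)
open Pool.Agent.Q187.VI
open Pool.Agent.Q187.HN

/-- the energy as a function of `(u_z, u_zbar)` -/
noncomputable def Gw (w f : ℝ → ℝ) (F : ℂ × ℂ) : ℝ := w (ss F) + w (vv F) + f (Dc F)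

theorem Gw_md (w f : ℝ → ℝ) : Md (Gw w f) := by
  intro F F' h1 h2
  unfold Gw ss vv Dc
  rw [h1, h2]

/-- convexity along the diagonal lines -/
theorem lines {w f : ℝ → ℝ} (hR : RCp (Gw w f)) {v : ℝ} (hv : 0 < v) :
    ConvexOn ℝ (Ioi 0) (fun s => w s + f (s * v)) := by
  set F : ℂ × ℂ := (((v / 2 : ℝ) : ℂ), ((-v / 2 : ℝ) : ℂ)) with hF
  set H : ℂ × ℂ := (((1 / 2 : ℝ) : ℂ), ((1 / 2 : ℝ) : ℂ)) with hH
  have n1 : ∀ τ : ℝ, ‖(F + τ • H).1‖ = |(τ + v) / 2| := by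
    intro τ
    have e : (F + τ • H).1 = (((τ + v) / 2 : ℝ) : ℂ) := by
      simp only [hF, hH, Prod.fst_add, Prod.smul_fst, Complex.real_smul]
      push_cast; ring
    rw [e, Complex.norm_real, Real.norm_eq_abs]
  have n2 : ∀ τ : ℝ, ‖(F + τ • H).2‖ = |(τ - v) / 2| := by
    intro τ
    have e : (F + τ • H).2 = (((τ - v) / 2 : ℝ) : ℂ) := by
      simp only [hF, hH, Prod.snd_add, Prod.smul_snd, Complex.real_smul]
      push_cast; ring
    rw [e, Complex.norm_real, Real.norm_eq_abs]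
  have hDτ : ∀ τ : ℝ, Dc (F + τ • H) = v * τ := by
    intro τ
    unfold Dc
    rw [n1, n2, sq_abs, sq_abs]; ring
  have hD0 : Dc F = 0 := by
    have := hDτ 0
    simpa using this
  have hc := lineW hR (F := F) (H := H) (by simp [hH]) (κ := v) (fun τ => by rw [hDτ, hD0]; ring)
  have hset : {τ : ℝ | 0 < Dc F + v * τ} = Ioi 0 := by
    ext τ
    rw [mem_setOf_eq, hD0, zero_add, mem_Ioi]
    exact mul_pos_iff_of_pos_left hv
  rw [hset] at hc
  have h2 := hc.add (convexOn_const (-w v) (convex_Ioi (0 : ℝ)))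
  refine h2.congr (fun τ hτ => ?_)
  have hτ0 : 0 < τ := hτ
  simp only [Pi.add_apply]
  unfold Gw ss vv
  rw [hDτ, n1, n2, abs_of_pos (by linarith : 0 < (τ + v) / 2), mul_comm v τ]
  rcases le_total v τ with h | h
  · rw [abs_of_nonneg (by linarith : 0 ≤ (τ - v) / 2)]
    have e1 : (τ + v) / 2 + (τ - v) / 2 = τ := by ring
    have e2 : (τ + v) / 2 - (τ - v) / 2 = v := by ring
    rw [e1, e2]; ring
  · rw [abs_of_nonpos (by linarith : (τ - v) / 2 ≤ 0)]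
    have e1 : (τ + v) / 2 + -((τ - v) / 2) = v := by ring
    have e2 : (τ + v) / 2 - -((τ - v) / 2) = τ := by ring
    rw [e1, e2]; ring

/-- supporting functions -/
theorem vl_supp {w f : ℝ → ℝ} (hw : ContinuousOn w (Ioi 0)) (hR : RCp (Gw w f)) {F0 : ℂ × ℂ}
    (h0 : Gl F0) :
    ∃ a b k : ℝ, 0 ≤ a ∧ 0 ≤ b ∧ ∀ F, Gl F →
      Gw w f F0 + a * (‖F.2‖ - ‖F0.2‖) + b * (‖F.1‖ - ‖F0.1‖) + k * (Dc F - Dc F0)
        ≤ Gw w f F := by
  obtain ⟨m, hcw, hcf⟩ := dec hw (fun v hv => lines hR hv)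
  set w' : ℝ → ℝ := fun s => w s + (-m) * Real.log s with hw'
  set f' : ℝ → ℝ := fun s => f s + m * Real.log s with hf'
  have hG : ∀ F, Gl F → Gw w f F = w' (ss F) + w' (vv F) + f' (Dc F) := by
    intro F hF
    have hv := vv_pos hF
    have hs : 0 < ss F := lt_of_lt_of_le hv ss_ge
    have hD : Dc F = ss F * vv F := by unfold Dc ss vv; ring
    simp only [hw', hf']
    unfold Gw
    rw [hD, Real.log_mul hs.ne' hv.ne']
    ring
  have sub : ∀ u : ℝ → ℝ, ConvexOn ℝ (Ioi 0) u → ∀ t0 : ℝ, 0 < t0 → ∃ B, ∀ t, 0 < t →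
      u t0 + B * (t - t0) ≤ u t := by
    intro u hu t0 ht0
    obtain ⟨B, hB⟩ := subg hu (l := t0 / 2) (u := t0 + 1) (t0 := t0) (mem_Ioi.2 (by linarith))
      (by linarith) (mem_Ioi.2 (by linarith)) (by linarith)
    exact ⟨B, fun t ht => hB t ht⟩
  have hv0 := vv_pos h0
  have hs0 : 0 < ss F0 := lt_of_lt_of_le hv0 ss_ge
  have hD0 : 0 < Dc F0 := (Gl_iff F0).1 h0
  obtain ⟨p, hp⟩ := sub w' hcw (ss F0) hs0
  obtain ⟨k, hk⟩ := sub f' hcf (Dc F0) hD0
  have hpr : ∃ r, (∀ t, 0 < t → w' (vv F0) + r * (t - vv F0) ≤ w' t) ∧ r ≤ p := by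
    rcases eq_or_lt_of_le (ss_ge (F := F0)) with h | h
    · exact ⟨p, by rw [h]; exact hp, le_rfl⟩
    · obtain ⟨r, hr⟩ := sub w' hcw (vv F0) hv0
      refine ⟨r, hr, ?_⟩
      have h1 := hp (vv F0) hv0
      have h2 := hr (ss F0) hs0
      by_contra hcon
      rw [not_le] at hcon
      nlinarith
  obtain ⟨r, hr, hrp⟩ := hpr
  refine supp hR (Gw_md w f) h0 (A := p - r) (B := p + r) (k := k) (by linarith) (fun F hF => ?_)
  have hv := vv_pos hF
  have hs : 0 < ss F := lt_of_lt_of_le hv ss_ge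
  have hD : 0 < Dc F := (Gl_iff F).1 hF
  rw [hG F hF, hG F0 h0]
  have h1 := hp (ss F) hs
  have h2 := hr (vv F) hv
  have h3 := hk (Dc F) hD
  have e1 : (p - r) * (‖F.2‖ - ‖F0.2‖) + (p + r) * (‖F.1‖ - ‖F0.1‖)
      = p * (ss F - ss F0) + r * (vv F - vv F0) := by
    unfold ss vv; ring
  linarith

theorem vl_meas {w f : ℝ → ℝ} (hw : ContinuousOn w (Ioi 0)) (hR : RCp (Gw w f))
    (F₀ : Matrix (Fin 2) (Fin 2) ℝ) {Ω : Set (Fin 2 → ℝ)} {ϑ : (Fin 2 → ℝ) → (Fin 2 → ℝ)}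
    (hpos : ∀ᵐ x ∂(volume.restrict Ω), ‖(T F₀ (fderiv ℝ ϑ x)).2‖ < ‖(T F₀ (fderiv ℝ ϑ x)).1‖) :
    AEStronglyMeasurable (fun x => Gw w f (T F₀ (fderiv ℝ ϑ x))) (volume.restrict Ω) := by
  have hf : ContinuousOn f (Ioi 0) := by
    have h1 := (lines hR one_pos).continuousOn isOpen_Ioi
    have h2 := h1.sub hw
    refine h2.congr (fun s _ => ?_)
    simp
  have hexp : ∀ u : ℝ → ℝ, ContinuousOn u (Ioi 0) → Measurable (fun t => u (Real.exp (Real.log t))) := by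
    intro u hu
    have h1 : Continuous (fun t => u (Real.exp t)) :=
      hu.comp_continuous Real.continuous_exp (fun t => Real.exp_pos t)
    exact h1.measurable.comp Real.measurable_log
  have hm : Measurable (fun F : ℂ × ℂ => w (Real.exp (Real.log (ss F)))
      + w (Real.exp (Real.log (vv F))) + f (Real.exp (Real.log (Dc F)))) := by
    have m1 : Measurable (fun F : ℂ × ℂ => ss F) := by unfold ss; fun_prop
    have m2 : Measurable (fun F : ℂ × ℂ => vv F) := by unfold vv; fun_prop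
    have m3 : Measurable (fun F : ℂ × ℂ => Dc F) := by unfold Dc; fun_prop
    exact (((hexp w hw).comp m1).add ((hexp w hw).comp m2)).add ((hexp f hf).comp m3)
  have hm2 := (hm.comp (T_meas F₀ ϑ)).aestronglyMeasurable (μ := volume.restrict Ω)
  refine hm2.congr ?_
  filter_upwards [hpos] with x hx
  have hgl : Gl (T F₀ (fderiv ℝ ϑ x)) := hx
  have hv := vv_pos hgl
  have hs : 0 < ss (T F₀ (fderiv ℝ ϑ x)) := lt_of_lt_of_le hv ss_ge
  have hD : 0 < Dc (T F₀ (fderiv ℝ ϑ x)) := (Gl_iff _).1 hgl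
  simp only [Function.comp]
  rw [Real.exp_log hs, Real.exp_log hv, Real.exp_log hD]
  rfl

open scoped Matrix.Norms.L2Operator in
theorem vl_val (w f : ℝ → ℝ) {A : Matrix (Fin 2) (Fin 2) ℝ} (hA : 0 < A.det) :
    w ‖A‖ + w (A.det / ‖A‖) + f A.det = Gw w f (cab A) := by
  obtain ⟨h1, h2⟩ := Pool.Agent.W74.MQ.OPN.main A
  have hgl : Gl (cab A) := (det_cab A).1 hA
  have hv := vv_pos hgl
  have hs : 0 < ss (cab A) := lt_of_lt_of_le hv ss_ge
  have e1 : ‖A‖ = ss (cab A) := h1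
  have e2 : A.det = Dc (cab A) := h2
  have e3 : A.det / ‖A‖ = vv (cab A) := by
    rw [e1, e2, div_eq_iff hs.ne']
    unfold Dc ss vv; ring
  rw [e3, e1, e2]
  rfl

end Pool.Agent.Q187.VL
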